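import Mathlib

set_option autoImplicit false

open Set Filter Topology MeasureTheory
open scoped Pointwise ENNReal

namespace H44D

/-- finite probability weights -/
def FinProb {ι : Type} [Fintype ι] (w : ι → ℝ) : Prop := (∀ i, 0 ≤ w i) ∧ ∑ i, w i = 1

open Classical in
/-- probability of an event under finite weights -/
noncomputable def pr {ι : Type} [Fintype ι] (w : ι → ℝ) (P : ι → Prop) : ℝ :=
  ∑ i, if P i then w i else 0

/-- every finitely supported probability on `V` charges, with mass `≥ c`, a left coset of a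
subgroup contained in `U` -/
def Coset {G : Type} [Group G] (U V : Set G) (c : ℝ) : Prop :=
  ∀ (ι : Type) [Fintype ι] (w : ι → ℝ) (r : ι → G), FinProb w → (∀ i, r i ∈ V) →
    ∃ (H : Subgroup G) (a : G), (H : Set G) ⊆ U ∧ c ≤ pr w (fun i => a⁻¹ * r i ∈ H)

/-- every finitely supported probability on `V` gives mass `≥ 1 - η` to a union of at most `m`
right cosets `L t` of a subgroup `L ⊆ U` -/
def Cover {G : Type} [Group G] (U V : Set G) (m : ℕ) (η : ℝ) : Prop :=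
  ∀ (ι : Type) [Fintype ι] (w : ι → ℝ) (r : ι → G), FinProb w → (∀ i, r i ∈ V) →
    ∃ (L : Subgroup G) (T : Finset G), (L : Set G) ⊆ U ∧ T.card ≤ m ∧
      1 - η ≤ pr w (fun i => ∃ t ∈ T, r i * t⁻¹ ∈ L)

/-- every finitely supported probability on `V` gives mass `≥ 1 - η` to a subgroup `⊆ U` -/
def Sub {G : Type} [Group G] (U V : Set G) (η : ℝ) : Prop :=
  ∀ (ι : Type) [Fintype ι] (w : ι → ℝ) (r : ι → G), FinProb w → (∀ i, r i ∈ V) →
    ∃ N : Subgroup G, (N : Set G) ⊆ U ∧ 1 - η ≤ pr w (fun i => r i ∈ N)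

/-- the conclusion of the question -/
def Decomp (G : Type) [Group G] [TopologicalSpace G] [MeasurableSpace G] : Prop :=
  ∃ A B : Set G, A ∪ B = Set.univ ∧ IsMeagre A ∧
    ∃ C : Set G, MeasurableSet C ∧ B ⊆ C ∧
      ∃ μ : MeasureTheory.Measure G, MeasureTheory.IsProbabilityMeasure μ ∧
        ∀ g h : G, μ ((fun x => g * x * h) '' C) = 0

/-- large sets for `μ` generate, in boundedly many steps, elements outside `U` -/
def Spread {G : Type} [Group G] [MeasurableSpace G] (μ : Measure G) (U : Set G) : Prop :=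
  ∀ c : ℝ≥0∞, 0 < c → ∃ n : ℕ, ∀ A : Set G, MeasurableSet A → c ≤ μ A → ¬ ((A⁻¹ * A) ^ n ⊆ U)

/-- finite data at every scale -/
def FinSpread {G : Type} [Group G] (U V : Set G) (c : ℝ) : Prop :=
  ∃ (ι : Type) (_ : Fintype ι) (w : ι → ℝ) (r : ι → G) (n : ℕ), FinProb w ∧ (∀ i, r i ∈ V) ∧
    ∀ T : Set ι, c ≤ pr w (fun i => i ∈ T) → ¬ (((r '' T)⁻¹ * (r '' T)) ^ n ⊆ U)

def TaskA : Prop := ∀ (G : Type) [Group G] [TopologicalSpace G] [IsTopologicalGroup G]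
  [PolishSpace G] [MeasurableSpace G] [BorelSpace G] (μ : Measure G) (U : Set G),
  IsProbabilityMeasure μ → U ∈ 𝓝 (1 : G) → Spread μ U → Decomp G

def TaskB : Prop := ∀ (G : Type) [Group G] [TopologicalSpace G] [IsTopologicalGroup G]
  [PolishSpace G] [MeasurableSpace G] [BorelSpace G] (U : Set G), U ∈ 𝓝 (1 : G) →
  (∀ V ∈ 𝓝 (1 : G), ∀ c : ℝ, 0 < c → FinSpread U V c) →
  ∃ (μ : Measure G) (U' : Set G), IsProbabilityMeasure μ ∧ U' ∈ 𝓝 (1 : G) ∧ Spread μ U'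

def TaskC1 : Prop := ∀ (G : Type) [Group G] [TopologicalSpace G] [IsTopologicalGroup G]
  (U V : Set G) (c : ℝ), V ∈ 𝓝 (1 : G) → 0 < c → Coset U V c →
  ∃ m : ℕ, ∀ η : ℝ, 0 < η → ∃ V' ∈ 𝓝 (1 : G), Cover (V * U * V⁻¹) V' m η

def TaskC2 : Prop := ∀ (G : Type) [Group G] [TopologicalSpace G] [IsTopologicalGroup G]
  (U : Set G) (m : ℕ), (∀ η : ℝ, 0 < η → ∃ V' ∈ 𝓝 (1 : G), Cover U V' m η) →
  ∀ W ∈ 𝓝 (1 : G), ∀ η : ℝ, 0 < η → ∃ V'' ∈ 𝓝 (1 : G), Sub (U * W) V'' η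

def TaskC3 : Prop := ∀ (G : Type) [Group G] [TopologicalSpace G] [IsTopologicalGroup G],
  (∀ U ∈ 𝓝 (1 : G), ∃ V ∈ 𝓝 (1 : G), Sub U V (1 / 10)) →
  ∀ U ∈ 𝓝 (1 : G), ∃ H : Subgroup G, IsOpen (H : Set G) ∧ (H : Set G) ⊆ U

end H44D
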