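import Mathlib
import Pool.Agent.H44D.Stmts

set_option autoImplicit false

open Set Filter Topology MeasureTheory
open scoped Pointwise ENNReal

namespace H44D

lemma exists_nhds_pow {G : Type} [Group G] [TopologicalSpace G] [IsTopologicalGroup G] (n : ℕ) :
    ∀ W ∈ 𝓝 (1 : G), ∃ V ∈ 𝓝 (1 : G), (V⁻¹ * V) ^ n ⊆ W := by
  induction n with
  | zero =>
    intro W hW
    refine ⟨univ, univ_mem, ?_⟩
    intro x hx
    simp only [pow_zero, Set.mem_one] at hx
    subst hx
    exact mem_of_mem_nhds hW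
  | succ n ih =>
    intro W hW
    have hcont : ContinuousAt (fun p : G × G => p.1 * p.2) ((1 : G), (1 : G)) := by fun_prop
    have hpre : (fun p : G × G => p.1 * p.2) ⁻¹' W ∈ 𝓝 ((1 : G), (1 : G)) :=
      hcont (by simpa using hW)
    rw [nhds_prod_eq] at hpre
    obtain ⟨A1, hA1, B1, hB1, h1⟩ := Filter.mem_prod_iff.mp hpre
    have hcont2 : ContinuousAt (fun p : G × G => p.1⁻¹ * p.2) ((1 : G), (1 : G)) := by fun_prop
    have hpre2 : (fun p : G × G => p.1⁻¹ * p.2) ⁻¹' B1 ∈ 𝓝 ((1 : G), (1 : G)) :=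
      hcont2 (by simpa using hB1)
    rw [nhds_prod_eq] at hpre2
    obtain ⟨A2, hA2, B2, hB2, h2⟩ := Filter.mem_prod_iff.mp hpre2
    obtain ⟨V, hV, hVA⟩ := ih A1 hA1
    refine ⟨V ∩ A2 ∩ B2, inter_mem (inter_mem hV hA2) hB2, ?_⟩
    intro x hx
    rw [pow_succ] at hx
    obtain ⟨a, ha, b, hb, rfl⟩ := hx
    have ha' : a ∈ A1 := by
      apply hVA
      refine Set.pow_subset_pow_left ?_ ha
      exact Set.mul_subset_mul (Set.inv_subset_inv.mpr (fun x hx => hx.1.1)) (fun x hx => hx.1.1)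
    have hb' : b ∈ B1 := by
      obtain ⟨p, hp, q, hq, rfl⟩ := hb
      have hp' := Set.mem_inv.mp hp
      have := h2 (Set.mk_mem_prod hp'.1.2 hq.2)
      simpa using this
    exact h1 (Set.mk_mem_prod ha' hb')

theorem taskA : TaskA := by
  classical
  intro G _ _ _ _ _ _ μ U hμ hU hS
  -- local uniform control
  have hloc : ∀ y : G, ∃ O ∈ 𝓝 y, ∃ V ∈ 𝓝 (1 : G), ∀ y' ∈ O, ∀ v ∈ V, y'⁻¹ * v * y' ∈ U := by
    intro y
    have hcont : ContinuousAt (fun p : G × G => p.1⁻¹ * p.2 * p.1) (y, (1 : G)) := by fun_prop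
    have hpre : (fun p : G × G => p.1⁻¹ * p.2 * p.1) ⁻¹' U ∈ 𝓝 (y, (1 : G)) :=
      hcont (by simpa using hU)
    rw [nhds_prod_eq] at hpre
    obtain ⟨A1, hA1, B1, hB1, h1⟩ := Filter.mem_prod_iff.mp hpre
    exact ⟨A1, hA1, B1, hB1, fun y' hy' v hv => h1 (Set.mk_mem_prod hy' hv)⟩
  choose O hO Vs hVs hOV using hloc
  obtain ⟨s, hsc, hs⟩ := TopologicalSpace.countable_cover_nhds hO
  have hsne : s.Nonempty := by
    by_contra hne
    rw [Set.not_nonempty_iff_eq_empty] at hne
    subst hne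
    have : (1 : G) ∈ (univ : Set G) := mem_univ _
    rw [← hs] at this
    simp at this
  obtain ⟨e, he⟩ := hsc.exists_eq_range hsne
  -- exponents
  have hpos : ∀ k : ℕ, (0 : ℝ≥0∞) < (1 / 2) ^ k := by
    intro k
    exact ENNReal.pow_pos (by norm_num) k
  choose n hn using fun k : ℕ => hS ((1 / 2) ^ k) (hpos k)
  -- small neighbourhoods
  have hVk : ∀ k : ℕ, ∃ V : Set G, IsOpen V ∧ (1 : G) ∈ V ∧
      ∀ j ≤ k, (V⁻¹ * V) ^ (n k) ⊆ Vs (e j) := by
    intro k
    have hW : (⋂ j ∈ Finset.range (k + 1), Vs (e j)) ∈ 𝓝 (1 : G) := by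
      rw [Filter.biInter_finset_mem]
      intro j _
      exact hVs _
    obtain ⟨V, hV, hVW⟩ := exists_nhds_pow (n k) _ hW
    refine ⟨interior V, isOpen_interior, mem_interior_iff_mem_nhds.mpr hV, ?_⟩
    intro j hj x hx
    have hx' : x ∈ (V⁻¹ * V) ^ (n k) := by
      refine Set.pow_subset_pow_left ?_ hx
      exact Set.mul_subset_mul (Set.inv_subset_inv.mpr interior_subset) interior_subset
    have := hVW hx'
    simp only [mem_iInter] at this
    exact this j (Finset.mem_range.mpr (by omega))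
  choose V hVo hV1 hVsub using hVk
  let d : ℕ → G := fun k => TopologicalSpace.denseSeq G (Nat.unpair k).1
  let W : ℕ → Set G := fun k => {x | (d k)⁻¹ * x ∈ V k}
  have hWo : ∀ k, IsOpen (W k) := fun k => (hVo k).preimage (continuous_const.mul continuous_id)
  set C : Set G := ⋂ N : ℕ, ⋃ k : {k : ℕ // N ≤ k}, W k with hC
  have hCo : ∀ N : ℕ, IsOpen (⋃ k : {k : ℕ // N ≤ k}, W k) := fun N =>
    isOpen_iUnion (fun k => hWo k)
  have hCres : C ∈ residual G := by
    rw [hC, countable_iInter_mem]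
    intro N
    apply residual_of_dense_open (hCo N)
    refine (TopologicalSpace.denseRange_denseSeq G).mono ?_
    rintro x ⟨i, rfl⟩
    refine mem_iUnion.mpr ⟨⟨Nat.pair i N, Nat.right_le_pair i N⟩, ?_⟩
    show (d (Nat.pair i N))⁻¹ * TopologicalSpace.denseSeq G i ∈ V (Nat.pair i N)
    simp only [d, Nat.unpair_pair, inv_mul_cancel]
    exact hV1 _
  have hCm : MeasurableSet C := MeasurableSet.iInter (fun N => (hCo N).measurableSet)
  refine ⟨Cᶜ, C, Set.compl_union_self C, ?_, C, hCm, le_rfl, μ, hμ, ?_⟩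
  · unfold IsMeagre
    rw [compl_compl]
    exact hCres
  · intro g h
    obtain ⟨j, hj⟩ : ∃ j, h ∈ O (e j) := by
      have : h ∈ (univ : Set G) := mem_univ _
      rw [← hs] at this
      simp only [mem_iUnion] at this
      obtain ⟨y, hy, hhy⟩ := this
      rw [he] at hy
      obtain ⟨j, rfl⟩ := hy
      exact ⟨j, hhy⟩
    let S : ℕ → Set G := fun k => {y | g⁻¹ * y * h⁻¹ ∈ W k}
    have hSm : ∀ k, MeasurableSet (S k) := by
      intro k
      have : IsOpen (S k) := (hWo k).preimage (by fun_prop)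
      exact this.measurableSet
    have hsmall : ∀ k, j ≤ k → μ (S k) ≤ (1 / 2) ^ k := by
      intro k hk
      by_contra hcon
      push Not at hcon
      apply hn k (S k) (hSm k) hcon.le
      intro z hz
      have h1 : ∀ z ∈ (S k)⁻¹ * S k, h * z * h⁻¹ ∈ (V k)⁻¹ * V k := by
        rintro z ⟨a, ha, b, hb, rfl⟩
        have ha' : (d k)⁻¹ * (g⁻¹ * a⁻¹ * h⁻¹) ∈ V k := Set.mem_inv.mp ha
        have hb' : (d k)⁻¹ * (g⁻¹ * b * h⁻¹) ∈ V k := hb
        refine ⟨((d k)⁻¹ * (g⁻¹ * a⁻¹ * h⁻¹))⁻¹, by simpa using ha', _, hb', ?_⟩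
        simp only
        group
      have h2 : ∀ m : ℕ, ∀ z ∈ ((S k)⁻¹ * S k) ^ m, h * z * h⁻¹ ∈ ((V k)⁻¹ * V k) ^ m := by
        intro m
        induction m with
        | zero =>
          intro z hz
          simp only [pow_zero, Set.mem_one] at hz
          subst hz
          simp
        | succ m ih =>
          intro z hz
          rw [pow_succ] at hz
          obtain ⟨a, ha, b, hb, rfl⟩ := hz
          rw [pow_succ]
          refine ⟨h * a * h⁻¹, ih a ha, h * b * h⁻¹, h1 b hb, ?_⟩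
          simp only
          group
      have h3 := hVsub k j hk (h2 (n k) z hz)
      have h4 := hOV (e j) h hj _ h3
      have : h⁻¹ * (h * z * h⁻¹) * h = z := by group
      rwa [this] at h4
    have hsub : (fun x => g * x * h) '' C ⊆ {y | ∃ᶠ k in atTop, y ∈ S (k + j)} := by
      rintro y ⟨x, hx, rfl⟩
      rw [mem_ofPred_eq, Filter.frequently_atTop]
      intro N
      have := mem_iInter.mp hx (N + j)
      obtain ⟨⟨k, hk⟩, hxk⟩ := mem_iUnion.mp this
      refine ⟨k - j, by omega, ?_⟩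
      show g⁻¹ * (g * x * h) * h⁻¹ ∈ W (k - j + j)
      have e1 : g⁻¹ * (g * x * h) * h⁻¹ = x := by group
      rw [e1, show k - j + j = k by omega]
      exact hxk
    refine measure_mono_null hsub ?_
    refine measure_setOfPred_frequently_eq_zero (p := fun k y => y ∈ S (k + j)) ?_
    have hle : ∑' k, μ {x | x ∈ S (k + j)} ≤ ∑' k : ℕ, (1 / 2 : ℝ≥0∞) ^ k := by
      refine ENNReal.tsum_le_tsum (fun k => ?_)
      refine (hsmall (k + j) (by omega)).trans ?_
      exact pow_le_pow_of_le_one (by norm_num) (by simp) (by omega)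
    refine ne_top_of_le_ne_top ?_ hle
    rw [ENNReal.tsum_geometric]
    norm_num

end H44D
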