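import Mathlib
import Pool.Agent.H44D.Stmts

set_option autoImplicit false

open Set Filter Topology MeasureTheory
open scoped Pointwise ENNReal

namespace H44D

/-- conversion of finite data into a finitely supported measure -/
lemma meas_of_finSpread {G : Type} [Group G] [MeasurableSpace G] [MeasurableSingletonClass G]
    (U V : Set G) (c : ℝ) (h : FinSpread U V c) :
    ∃ (ρ : Measure G) (F : Finset G) (n : ℕ), IsProbabilityMeasure ρ ∧ (F : Set G) ⊆ V ∧
      ∀ A : Set G, MeasurableSet A → ENNReal.ofReal c ≤ ρ A →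
        ¬ (((A ∩ F)⁻¹ * (A ∩ F)) ^ n ⊆ U) := by
  classical
  obtain ⟨ι, hι, w, r, n, hw, hr, h⟩ := h
  refine ⟨∑ i, ENNReal.ofReal (w i) • Measure.dirac (r i), Finset.univ.image r, n, ?_, ?_, ?_⟩
  · constructor
    simp only [Measure.coe_finsetSum, Finset.sum_apply, Measure.smul_apply,
      MeasurableSet.univ, Measure.dirac_apply', smul_eq_mul]
    rw [← ENNReal.ofReal_one, ← hw.2, ENNReal.ofReal_sum_of_nonneg (fun i _ => hw.1 i)]
    apply Finset.sum_congr rfl
    intro i _
    simp
  · intro x hx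
    simp only [Finset.coe_image, Finset.coe_univ, Set.image_univ, Set.mem_range] at hx
    obtain ⟨i, rfl⟩ := hx
    exact hr i
  · intro A hA hc hsub
    have hval : (∑ i, ENNReal.ofReal (w i) • Measure.dirac (r i)) A =
        ENNReal.ofReal (pr w (fun i => r i ∈ A)) := by
      unfold pr
      rw [ENNReal.ofReal_sum_of_nonneg]
      · simp only [Measure.coe_finsetSum, Finset.sum_apply, Measure.smul_apply,
          Measure.dirac_apply' _ hA, smul_eq_mul]
        apply Finset.sum_congr rfl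
        intro i _
        by_cases hi : r i ∈ A <;> simp [hi]
      · intro i _
        split_ifs
        · exact hw.1 i
        · exact le_refl _
    rw [hval] at hc
    have hnn : 0 ≤ pr w (fun i => r i ∈ A) := by
      unfold pr
      apply Finset.sum_nonneg
      intro i _
      split_ifs
      · exact hw.1 i
      · exact le_refl _
    have hc' : c ≤ pr w (fun i => r i ∈ A) := (ENNReal.ofReal_le_ofReal_iff hnn).mp hc
    have himg : r '' {i | r i ∈ A} = A ∩ ((Finset.univ.image r : Finset G) : Set G) := by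
      ext x
      constructor
      · rintro ⟨i, hi, rfl⟩
        exact ⟨hi, by simp⟩
      · rintro ⟨hx, hx'⟩
        simp only [Finset.coe_image, Finset.coe_univ, Set.image_univ, Set.mem_range] at hx'
        obtain ⟨i, rfl⟩ := hx'
        exact ⟨i, hx, rfl⟩
    refine h {i | r i ∈ A} hc' ?_
    rw [himg]
    exact hsub

/-- Fubini for one coordinate of an infinite product -/
lemma exists_fiber {G : Type} [MeasurableSpace G] (ρ : ℕ → Measure G)
    [∀ n, IsProbabilityMeasure (ρ n)] (m : ℕ) (E : Set (ℕ → G)) (hE : MeasurableSet E)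
    (c : ℝ≥0∞) (hc : c < Measure.infinitePi ρ E) :
    ∃ ω : ℕ → G, c ≤ ρ m {g | Function.update ω m g ∈ E} := by
  classical
  set P := Measure.infinitePi ρ with hP
  have hupd : Measurable (fun p : (ℕ → G) × G => Function.update p.1 m p.2) := by
    rw [measurable_pi_iff]
    intro i
    by_cases hi : i = m
    · subst hi
      simpa using measurable_snd
    · simp only [Function.update_of_ne hi]
      exact (measurable_pi_apply i).comp measurable_fst
  have hmap : (P.prod (ρ m)).map (fun p : (ℕ → G) × G => Function.update p.1 m p.2) = P := by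
    apply Measure.eq_infinitePi
    intro s t ht
    rw [Measure.map_apply hupd]
    · have hpre : (fun p : (ℕ → G) × G => Function.update p.1 m p.2) ⁻¹' (Set.pi s t) =
          (Set.pi (s.erase m : Finset ℕ) t) ×ˢ (if m ∈ s then t m else Set.univ) := by
        ext ⟨ω, g⟩
        simp only [Set.mem_preimage, Set.mem_pi, Finset.mem_coe, Set.mem_prod,
          Finset.mem_erase]
        constructor
        · intro h
          refine ⟨fun i hi => ?_, ?_⟩
          · have := h i hi.2
            rwa [Function.update_of_ne hi.1] at this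
          · split_ifs with hm
            · have := h m hm
              simpa using this
            · trivial
        · rintro ⟨h1, h2⟩ i hi
          by_cases him : i = m
          · subst him
            rw [if_pos hi] at h2
            simpa using h2
          · rw [Function.update_of_ne him]
            exact h1 i ⟨him, hi⟩
      rw [hpre, Measure.prod_prod, hP, Measure.infinitePi_pi]
      · by_cases hm : m ∈ s
        · rw [if_pos hm, Finset.prod_erase_mul s (fun i => ρ i (t i)) hm]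
        · rw [if_neg hm, Finset.erase_eq_of_notMem hm]
          simp
      · intro i hi
        exact ht i
    · exact MeasurableSet.pi (Finset.countable_toSet s) (fun i _ => ht i)
  by_contra hcon
  push Not at hcon
  have h1 : P E = ∫⁻ ω, ρ m {g | Function.update ω m g ∈ E} ∂P := by
    conv_lhs => rw [← hmap]
    rw [Measure.map_apply hupd hE, Measure.prod_apply (hupd hE)]
    rfl
  have h2 : P E ≤ c := by
    rw [h1]
    calc ∫⁻ ω, ρ m {g | Function.update ω m g ∈ E} ∂P ≤ ∫⁻ _, c ∂P :=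
          lintegral_mono (fun ω => (hcon ω).le)
      _ = c := by simp
  exact absurd h2 (not_le.mpr hc)


/-- one step of the construction -/
lemma step {G : Type} [Group G] [MetricSpace G] [IsTopologicalGroup G]
    [MeasurableSpace G] [BorelSpace G] (U U' : Set G) (hU'c : IsClosed U') (hU'U : U' ⊆ U)
    (hfs : ∀ V ∈ 𝓝 (1 : G), ∀ c : ℝ, 0 < c → FinSpread U V c)
    (m : ℕ) (P : Finset G) (W : Set G) (hW : W ∈ 𝓝 (1 : G)) :
    ∃ (A : Set G) (F : Finset G) (ρ : Measure G) (n : ℕ) (W' : Set G),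
      (1 : G) ∈ A ∧ (∀ a ∈ A, ∀ b ∈ A, a * b ∈ W) ∧
      (∀ u ∈ P, ∀ v ∈ A, dist u (u * v) ≤ 1 * (1 / 2 : ℝ) ^ m) ∧
      (F : Set G) ⊆ A ∧ IsProbabilityMeasure ρ ∧
      (∀ B : Set G, MeasurableSet B → ENNReal.ofReal ((1 / 2 : ℝ) ^ m) ≤ ρ B →
        ¬ (((B ∩ F)⁻¹ * (B ∩ F)) ^ n ⊆ U)) ∧
      W' ⊆ A ∧ W' ∈ 𝓝 (1 : G) ∧ IsClosed W' ∧
      (∀ x ∈ ((F : Set G)⁻¹ * (F : Set G)) ^ n, x ∉ U → ∀ v ∈ W', v⁻¹ * x * v ∉ U') := by
  classical
  -- the nbhd A
  have hA1 : ∃ A1 ∈ 𝓝 (1 : G), ∀ a ∈ A1, ∀ b ∈ A1, a * b ∈ W := by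
    have hcont : ContinuousAt (fun p : G × G => p.1 * p.2) ((1 : G), (1 : G)) := by fun_prop
    have hpre : (fun p : G × G => p.1 * p.2) ⁻¹' W ∈ 𝓝 ((1 : G), (1 : G)) :=
      hcont (by simpa using hW)
    rw [nhds_prod_eq] at hpre
    obtain ⟨A1, hA1, B1, hB1, h1⟩ := Filter.mem_prod_iff.mp hpre
    exact ⟨A1 ∩ B1, inter_mem hA1 hB1, fun a ha b hb => h1 (Set.mk_mem_prod ha.1 hb.2)⟩
  obtain ⟨A1, hA1, hA1W⟩ := hA1
  have hA2 : ∀ u : G, {v : G | dist u (u * v) ≤ 1 * (1 / 2 : ℝ) ^ m} ∈ 𝓝 (1 : G) := by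
    intro u
    have hcont : ContinuousAt (fun v : G => dist u (u * v)) 1 := by fun_prop
    have hpos : (0 : ℝ) < 1 * (1 / 2 : ℝ) ^ m := by positivity
    have : Iic (1 * (1 / 2 : ℝ) ^ m) ∈ 𝓝 (dist u (u * 1)) := by
      rw [mul_one, dist_self]
      exact Iic_mem_nhds hpos
    exact hcont this
  set A : Set G := A1 ∩ ⋂ u ∈ P, {v : G | dist u (u * v) ≤ 1 * (1 / 2 : ℝ) ^ m} with hA
  have hAn : A ∈ 𝓝 (1 : G) := by
    refine inter_mem hA1 ?_
    rw [Filter.biInter_finset_mem]
    intro u _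
    exact hA2 u
  obtain ⟨ρ, F, n, hρ, hFA, hsp⟩ := meas_of_finSpread U A ((1 / 2 : ℝ) ^ m)
    (hfs A hAn _ (by positivity))
  have hfin : (((F : Set G)⁻¹ * (F : Set G)) ^ n).Finite := by
    have h0 : ((F : Set G)⁻¹ * (F : Set G)).Finite := (F.finite_toSet.inv).mul F.finite_toSet
    clear hsp
    induction n with
    | zero => simp
    | succ k ih => rw [pow_succ]; exact ih.mul h0
  have hW1 : A ∩ ⋂ x ∈ hfin.toFinset, {v : G | x ∉ U → v⁻¹ * x * v ∉ U'} ∈ 𝓝 (1 : G) := by
    refine inter_mem hAn ?_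
    rw [Filter.biInter_finset_mem]
    intro x _
    by_cases hx : x ∈ U
    · have : {v : G | x ∉ U → v⁻¹ * x * v ∉ U'} = univ := by
        ext v; simp [hx]
      rw [this]; exact univ_mem
    · have hx' : x ∉ U' := fun h => hx (hU'U h)
      have hcont : ContinuousAt (fun v : G => v⁻¹ * x * v) 1 := by fun_prop
      have h3 : U'ᶜ ∈ 𝓝 ((1 : G)⁻¹ * x * 1) := by
        simp only [inv_one, one_mul, mul_one]
        exact hU'c.isOpen_compl.mem_nhds hx'
      have h4 := hcont h3
      filter_upwards [h4] with v hv _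
      exact hv
  obtain ⟨W', hW'n, hW'c, hW's⟩ := exists_mem_nhds_isClosed_subset hW1
  refine ⟨A, F, ρ, n, W', mem_of_mem_nhds hAn, ?_, ?_, hFA, hρ, hsp, ?_, hW'n, hW'c, ?_⟩
  · intro a ha b hb
    exact hA1W a ha.1 b hb.1
  · intro u hu v hv
    have := hv.2
    simp only [mem_iInter] at this
    exact this u hu
  · exact fun v hv => (hW's hv).1
  · intro x hx hxU v hv
    have := (hW's hv).2
    simp only [mem_iInter] at this
    exact this x (hfin.mem_toFinset.mpr hx) hxU

/-- finite tails of the product -/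
def tl {G : Type} [Group G] (f : ℕ → G → G) (ω : ℕ → G) : ℕ → ℕ → G
  | _, 0 => 1
  | m, k + 1 => f m (ω m) * tl f ω (m + 1) k

lemma tl_succ' {G : Type} [Group G] (f : ℕ → G → G) (ω : ℕ → G) (k : ℕ) :
    ∀ m, tl f ω m (k + 1) = tl f ω m k * f (m + k) (ω (m + k)) := by
  induction k with
  | zero => intro m; simp [tl]
  | succ k ih =>
    intro m
    have h1 : tl f ω m (k + 1 + 1) = f m (ω m) * tl f ω (m + 1) (k + 1) := rfl
    rw [h1, ih (m + 1)]
    have h2 : tl f ω m (k + 1) = f m (ω m) * tl f ω (m + 1) k := rfl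
    rw [h2, mul_assoc, show m + 1 + k = m + (k + 1) by ring]

lemma tl_add {G : Type} [Group G] (f : ℕ → G → G) (ω : ℕ → G) (a k : ℕ) :
    ∀ m, tl f ω m (a + k) = tl f ω m a * tl f ω (m + a) k := by
  induction k with
  | zero => intro m; simp [tl]
  | succ k ih =>
    intro m
    rw [← add_assoc, tl_succ', ih m, tl_succ', mul_assoc, add_assoc]

lemma tl_congr {G : Type} [Group G] (f : ℕ → G → G) (ω ω' : ℕ → G) (k : ℕ) :
    ∀ m, (∀ i, m ≤ i → i < m + k → ω i = ω' i) → tl f ω m k = tl f ω' m k := by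
  induction k with
  | zero => intro m _; rfl
  | succ k ih =>
    intro m h
    have h1 : tl f ω m (k + 1) = f m (ω m) * tl f ω (m + 1) k := rfl
    have h2 : tl f ω' m (k + 1) = f m (ω' m) * tl f ω' (m + 1) k := rfl
    rw [h1, h2, h m le_rfl (by omega), ih (m + 1) (fun i hi hi' => h i (by omega) (by omega))]

theorem taskB : TaskB := by
  classical
  intro G _ _ _ _ _ _ U hU hfs
  letI := TopologicalSpace.upgradeIsCompletelyMetrizable G
  obtain ⟨U', hU'n, hU'c, hU'U⟩ := exists_mem_nhds_isClosed_subset hU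
  choose A F ρ n W' h1 hmul hdist hFA hρ hsp hW'A hW'n hW'c hconj using
    fun (m : ℕ) (P : Finset G) (W : Set G) (hW : W ∈ 𝓝 (1 : G)) =>
      step U U' hU'c hU'U hfs m P W hW
  -- the states
  let St := {p : Finset G × Set G // p.2 ∈ 𝓝 (1 : G) ∧ IsClosed p.2}
  let nxt : ℕ → St → St := fun m p =>
    ⟨(p.1.1 * insert 1 (F m p.1.1 p.1.2 p.2.1), W' m p.1.1 p.1.2 p.2.1),
      hW'n m p.1.1 p.1.2 p.2.1, hW'c m p.1.1 p.1.2 p.2.1⟩
  let s : ℕ → St := fun m => Nat.rec (motive := fun _ => St)
    ⟨({1}, Set.univ), univ_mem, isClosed_univ⟩ (fun m p => nxt m p) m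
  have hs : ∀ m, s (m + 1) = nxt m (s m) := fun m => rfl
  let P : ℕ → Finset G := fun m => (s m).1.1
  let W : ℕ → Set G := fun m => (s m).1.2
  have hWn : ∀ m, W m ∈ 𝓝 (1 : G) := fun m => (s m).2.1
  have hWc : ∀ m, IsClosed (W m) := fun m => (s m).2.2
  let AA : ℕ → Set G := fun m => A m (P m) (W m) (hWn m)
  let FF : ℕ → Finset G := fun m => F m (P m) (W m) (hWn m)
  let rr : ℕ → Measure G := fun m => ρ m (P m) (W m) (hWn m)
  let nn : ℕ → ℕ := fun m => n m (P m) (W m) (hWn m)
  have hP0 : (1 : G) ∈ P 0 := by show (1 : G) ∈ ({1} : Finset G); simp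
  have hPs : ∀ m, P (m + 1) = P m * insert 1 (FF m) := fun m => rfl
  have hWs : ∀ m, W (m + 1) ⊆ AA m := fun m => hW'A m (P m) (W m) (hWn m)
  have hmul' : ∀ m, ∀ a ∈ AA m, ∀ b ∈ AA m, a * b ∈ W m := fun m => hmul m (P m) (W m) (hWn m)
  have hdist' : ∀ m, ∀ u ∈ P m, ∀ v ∈ AA m, dist u (u * v) ≤ 1 * (1 / 2 : ℝ) ^ m :=
    fun m => hdist m (P m) (W m) (hWn m)
  have h1' : ∀ m, (1 : G) ∈ AA m := fun m => h1 m (P m) (W m) (hWn m)
  have hFA' : ∀ m, (FF m : Set G) ⊆ AA m := fun m => hFA m (P m) (W m) (hWn m)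
  have hrr : ∀ m, IsProbabilityMeasure (rr m) := fun m => hρ m (P m) (W m) (hWn m)
  have hsp' : ∀ m, ∀ B : Set G, MeasurableSet B → ENNReal.ofReal ((1 / 2 : ℝ) ^ m) ≤ rr m B →
        ¬ (((B ∩ FF m)⁻¹ * (B ∩ FF m)) ^ (nn m) ⊆ U) := fun m => hsp m (P m) (W m) (hWn m)
  have hconj' : ∀ m, ∀ x ∈ ((FF m : Set G)⁻¹ * (FF m : Set G)) ^ (nn m), x ∉ U →
      ∀ v ∈ W (m + 1), v⁻¹ * x * v ∉ U' := fun m => hconj m (P m) (W m) (hWn m)
  -- the truncated coordinates
  let f : ℕ → G → G := fun m g => if g ∈ FF m then g else 1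
  have hfmeas : ∀ m, Measurable (f m) := by
    intro m
    refine Measurable.ite ?_ measurable_id measurable_const
    exact (FF m).measurableSet
  have hfA : ∀ m g, f m g ∈ AA m := by
    intro m g
    by_cases hg : g ∈ FF m
    · simp only [f, if_pos hg]; exact hFA' m hg
    · simp only [f, if_neg hg]; exact h1' m
  have hfF : ∀ m g, f m g ∈ insert 1 (FF m) := by
    intro m g
    by_cases hg : g ∈ FF m
    · simp [f, if_pos hg, hg]
    · simp [f, if_neg hg]
  have hpre : ∀ ω m, tl f ω 0 m ∈ P m := by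
    intro ω m
    induction m with
    | zero => exact hP0
    | succ m ih =>
      rw [tl_succ', hPs]
      simp only [zero_add]
      exact Finset.mul_mem_mul ih (hfF m _)
  have htlW : ∀ ω k m, tl f ω m k ∈ W m := by
    intro ω k
    induction k with
    | zero => intro m; exact mem_of_mem_nhds (hWn m)
    | succ k ih =>
      intro m
      exact hmul' m _ (hfA m _) _ (hWs m (ih (m + 1)))
  have hcauchy : ∀ ω, CauchySeq (fun m => tl f ω 0 m) := by
    intro ω
    apply cauchySeq_of_le_geometric (1 / 2) 1 (by norm_num)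
    intro m
    rw [tl_succ']
    simp only [zero_add]
    exact hdist' m _ (hpre ω m) _ (hfA m _)
  have hlim : ∀ ω, ∃ g, Tendsto (fun m => tl f ω 0 m) atTop (𝓝 g) := fun ω =>
    cauchySeq_tendsto_of_complete (hcauchy ω)
  choose Φ hΦ using hlim
  have htlmeas : ∀ k m, Measurable (fun ω : ℕ → G => tl f ω m k) := by
    intro k
    induction k with
    | zero => intro m; exact measurable_const
    | succ k ih =>
      intro m
      exact ((hfmeas m).comp (measurable_pi_apply m)).mul (ih (m + 1))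
  have hΦmeas : Measurable Φ :=
    measurable_of_tendsto_metrizable (fun k => htlmeas k 0) (tendsto_pi_nhds.mpr hΦ)
  -- tails converge
  have htail : ∀ ω m, Tendsto (fun k => tl f ω m k) atTop (𝓝 ((tl f ω 0 m)⁻¹ * Φ ω)) := by
    intro ω m
    have h2 : Tendsto (fun k => tl f ω 0 (m + k)) atTop (𝓝 (Φ ω)) := by
      have := (hΦ ω).comp (tendsto_add_atTop_nat m)
      refine this.congr ?_
      intro k
      simp [Function.comp, add_comm]
    have h3 : Tendsto (fun k => (tl f ω 0 m)⁻¹ * tl f ω 0 (m + k)) atTop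
        (𝓝 ((tl f ω 0 m)⁻¹ * Φ ω)) := h2.const_mul _
    refine h3.congr ?_
    intro k
    rw [tl_add]
    simp
  have htailW : ∀ ω m, (tl f ω 0 m)⁻¹ * Φ ω ∈ W m := fun ω m =>
    (hWc m).mem_of_tendsto (htail ω m) (Eventually.of_forall (fun k => htlW ω k m))
  haveI : ∀ m, IsProbabilityMeasure (rr m) := hrr
  let Pr := Measure.infinitePi rr
  refine ⟨Pr.map Φ, U', ?_, hU'n, ?_⟩
  · exact Measure.isProbabilityMeasure_map hΦmeas.aemeasurable
  · intro c hc
    -- choose m with (1/2)^m < c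
    obtain ⟨m, hm⟩ : ∃ m : ℕ, ENNReal.ofReal ((1 / 2 : ℝ) ^ m) < c := by
      obtain ⟨m, hm⟩ := ENNReal.exists_inv_two_pow_lt hc.ne'
      refine ⟨m, ?_⟩
      have : ENNReal.ofReal ((1 / 2 : ℝ) ^ m) = 2⁻¹ ^ m := by
        rw [ENNReal.ofReal_pow (by norm_num)]
        congr 1
        rw [one_div, ENNReal.ofReal_inv_of_pos (by norm_num)]
        simp
      rw [this]
      exact hm
    refine ⟨nn m, ?_⟩
    intro B hB hcB hsub
    rw [Measure.map_apply hΦmeas hB] at hcB
    obtain ⟨ω, hω⟩ := exists_fiber rr m (Φ ⁻¹' B) (hΦmeas hB) _ (lt_of_lt_of_le hm hcB)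
    set Bm : Set G := {g | Function.update ω m g ∈ Φ ⁻¹' B} with hBm
    have hBmm : MeasurableSet Bm := by
      have : Measurable (fun g : G => Function.update ω m g) := by
        exact measurable_update ω
      exact this (hΦmeas hB)
    obtain ⟨x, hx, hxU⟩ := Set.not_subset.mp (hsp' m Bm hBmm hω)
    -- the decomposition
    set u := tl f ω 0 m with hu
    set v := (tl f ω 0 (m + 1))⁻¹ * Φ ω with hv
    have hvW : v ∈ W (m + 1) := htailW ω (m + 1)
    have hdec : ∀ g ∈ FF m, Φ (Function.update ω m g) = u * g * v := by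
      intro g hg
      set ω' := Function.update ω m g with hω'
      have e1 : tl f ω' 0 m = u := by
        apply tl_congr
        intro i _ hi
        rw [hω', Function.update_of_ne (by omega)]
      have e2 : tl f ω' 0 (m + 1) = u * g := by
        rw [tl_succ', e1]
        simp only [zero_add, hω', Function.update_self]
        simp [f, hg]
      have e3 : ∀ k, tl f ω' (m + 1) k = tl f ω (m + 1) k := by
        intro k
        apply tl_congr
        intro i hi _
        rw [hω', Function.update_of_ne (by omega)]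
      have e4 := htail ω' (m + 1)
      simp only [e3] at e4
      have e5 := tendsto_nhds_unique e4 (htail ω (m + 1))
      rw [e2] at e5
      have : Φ ω' = (u * g) * ((u * g)⁻¹ * Φ ω') := by group
      rw [this, e5]
    have hkey : ∀ z ∈ (Bm ∩ FF m)⁻¹ * (Bm ∩ (FF m : Set G)), v⁻¹ * z * v ∈ B⁻¹ * B := by
      rintro z ⟨a, ha, b, hb, rfl⟩
      have ha' : a⁻¹ ∈ Bm ∩ (FF m : Set G) := by simpa using ha
      have hva : u * a⁻¹ * v ∈ B := by
        rw [← hdec _ ha'.2]; exact ha'.1
      have hvb : u * b * v ∈ B := by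
        rw [← hdec _ hb.2]; exact hb.1
      refine ⟨(u * a⁻¹ * v)⁻¹, by simpa using hva, u * b * v, hvb, ?_⟩
      simp only
      group
    have hpow : ∀ k : ℕ, ∀ z ∈ ((Bm ∩ FF m)⁻¹ * (Bm ∩ (FF m : Set G))) ^ k,
        v⁻¹ * z * v ∈ (B⁻¹ * B) ^ k := by
      intro k
      induction k with
      | zero =>
        intro z hz
        simp only [pow_zero, Set.mem_one] at hz
        subst hz
        simp
      | succ k ih =>
        intro z hz
        rw [pow_succ] at hz
        obtain ⟨a, ha, b, hb, rfl⟩ := hz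
        rw [pow_succ]
        refine ⟨v⁻¹ * a * v, ih a ha, v⁻¹ * b * v, hkey b hb, ?_⟩
        simp only
        group
    have hxF : x ∈ ((FF m : Set G)⁻¹ * (FF m : Set G)) ^ (nn m) := by
      refine Set.pow_subset_pow_left ?_ hx
      exact Set.mul_subset_mul (Set.inv_subset_inv.mpr inter_subset_right) inter_subset_right
    exact hconj' m x hxF hxU v hvW (hsub (hpow _ x hx))

end H44D
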