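import Pool.Agent.H44D.Stmts

/-!
# Task C3 of the project H44-DARJI
-/

set_option autoImplicit false

open Set Filter Topology MeasureTheory
open scoped Pointwise ENNReal

namespace H44D

namespace C3

open Classical in
theorem mw {G : Type} (F : Finset G) (P : Finset G → Prop)
    (hT : ∀ w : G → ℝ, (∀ g, 0 < w g) →
      ∃ T ⊆ F, P T ∧ 9 / 10 * ∑ f ∈ F, w f ≤ ∑ f ∈ T, w f) (k : ℕ) :
    ∃ T : Fin k → Finset G, (∀ i, T i ⊆ F ∧ P (T i)) ∧
      ∑ f ∈ F, (1 / 2 : ℝ) ^ (∑ i, if f ∈ T i then 1 else 0 : ℕ) ≤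
        F.card * (11 / 20 : ℝ) ^ k := by
  induction k with
  | zero => exact ⟨fun i => i.elim0, fun i => i.elim0, by simp⟩
  | succ k ih =>
    obtain ⟨T, h1, h2⟩ := ih
    obtain ⟨S, hS, hP, hS2⟩ := hT (fun f => (1 / 2 : ℝ) ^ (∑ i, if f ∈ T i then 1 else 0 : ℕ))
      (fun g => by positivity)
    refine ⟨Fin.cons S T, ?_, ?_⟩
    · intro i
      refine Fin.cases ?_ (fun j => ?_) i
      · simpa using ⟨hS, hP⟩
      · simpa using h1 j
    · have h3 : ∀ f, (1 / 2 : ℝ) ^ (∑ i : Fin (k + 1),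
          if f ∈ (Fin.cons S T : Fin (k + 1) → Finset G) i then 1 else 0 : ℕ) =
          (1 / 2 : ℝ) ^ (∑ i, if f ∈ T i then 1 else 0 : ℕ) -
            (if f ∈ S then (1 / 2) * (1 / 2 : ℝ) ^ (∑ i, if f ∈ T i then 1 else 0 : ℕ)
              else 0) := by
        intro f
        rw [Fin.sum_univ_succ]
        simp only [Fin.cons_zero, Fin.cons_succ]
        by_cases hf : f ∈ S
        · rw [if_pos hf, if_pos hf, pow_add]
          ring
        · rw [if_neg hf, if_neg hf, zero_add, sub_zero]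
      rw [Finset.sum_congr rfl fun f _ => h3 f, Finset.sum_sub_distrib, Finset.sum_ite_mem,
        Finset.inter_eq_right.mpr hS, ← Finset.mul_sum, pow_succ]
      linarith

variable {G : Type} [Group G]

theorem pr_le_one {ι : Type} [Fintype ι] (w : ι → ℝ) (hw : FinProb w) (P : ι → Prop) :
    pr w P ≤ 1 := by
  classical
  unfold pr
  rw [← hw.2]
  refine Finset.sum_le_sum fun i _ => ?_
  split_ifs
  · exact le_rfl
  · exact hw.1 i

theorem law (l : List G) : ∃ (ι : Type) (_ : Fintype ι) (w : ι → ℝ) (r : ι → G), FinProb w ∧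
    (∀ i, r i ∈ Subgroup.closure {g | g ∈ l}) ∧
    ∀ N : Subgroup G, (∃ g ∈ l, g ∉ N) → pr w (fun i => r i ∈ N) ≤ 1 / 2 := by
  classical
  induction l with
  | nil =>
    refine ⟨Unit, inferInstance, fun _ => 1, fun _ => 1, ⟨fun _ => zero_le_one, by simp⟩,
      fun _ => one_mem _, ?_⟩
    rintro N ⟨g, hg, _⟩
    simp at hg
  | cons g l ih =>
    obtain ⟨ι, _, w, r, hw, hr, hN⟩ := ih
    refine ⟨ι ⊕ ι, inferInstance, Sum.elim (fun i => w i / 2) (fun i => w i / 2),
      Sum.elim r (fun i => g * r i), ⟨?_, ?_⟩, ?_, ?_⟩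
    · rintro (i | i)
      · exact div_nonneg (hw.1 i) (by norm_num)
      · exact div_nonneg (hw.1 i) (by norm_num)
    · rw [Fintype.sum_sum_type]
      simp only [Sum.elim_inl, Sum.elim_inr]
      rw [← Finset.sum_div, hw.2]
      norm_num
    · have hsub : Subgroup.closure {x | x ∈ l} ≤ Subgroup.closure {x | x ∈ g :: l} :=
        Subgroup.closure_mono fun x hx => List.mem_cons_of_mem _ hx
      rintro (i | i)
      · exact hsub (hr i)
      · exact mul_mem (Subgroup.subset_closure (by simp)) (hsub (hr i))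
    · intro N hg
      have e : pr (Sum.elim (fun i => w i / 2) (fun i => w i / 2) : ι ⊕ ι → ℝ)
          (fun i => (Sum.elim r (fun i => g * r i) : ι ⊕ ι → G) i ∈ N) =
          ∑ i, ((if r i ∈ N then w i / 2 else 0) + (if g * r i ∈ N then w i / 2 else 0)) := by
        unfold pr
        rw [Fintype.sum_sum_type, Finset.sum_add_distrib]
        simp only [Sum.elim_inl, Sum.elim_inr]
        try congr 1
      rw [e]
      by_cases hgN : g ∈ N
      · have hex : ∃ g' ∈ l, g' ∉ N := by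
          obtain ⟨g', h1, h2⟩ := hg
          rcases List.mem_cons.1 h1 with h | h
          · exact absurd (h ▸ hgN) h2
          · exact ⟨g', h, h2⟩
        refine le_trans (le_of_eq ?_) (hN N hex)
        unfold pr
        refine Finset.sum_congr rfl fun i _ => ?_
        by_cases h : r i ∈ N
        · rw [if_pos h, if_pos h, if_pos (mul_mem hgN h)]
          ring
        · rw [if_neg h, if_neg h, if_neg, add_zero]
          intro h'
          exact h ((N.mul_mem_cancel_left hgN).1 h')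
      · have h1 : ∑ i, ((if r i ∈ N then w i / 2 else 0) + (if g * r i ∈ N then w i / 2 else 0)) ≤
            ∑ i, w i / 2 := by
          refine Finset.sum_le_sum fun i _ => ?_
          have h0 := hw.1 i
          by_cases h : r i ∈ N
          · have h' : g * r i ∉ N := fun h' => hgN ((N.mul_mem_cancel_right h).1 h')
            rw [if_pos h, if_neg h', add_zero]
          · rw [if_neg h, zero_add]
            split_ifs
            · exact le_rfl
            · linarith
        refine h1.trans (le_of_eq ?_)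
        rw [← Finset.sum_div, hw.2]

theorem exists_T (V0 V1 : Set G) (h : Sub V0 V1 (1 / 10)) (F : Finset G) (hF : F.Nonempty)
    (hF1 : (F : Set G) ⊆ V1) (w : G → ℝ) (hw : ∀ g, 0 < w g) :
    ∃ T ⊆ F, (Subgroup.closure (T : Set G) : Set G) ⊆ V0 ∧
      9 / 10 * ∑ f ∈ F, w f ≤ ∑ f ∈ T, w f := by
  classical
  have hW : 0 < ∑ f ∈ F, w f := Finset.sum_pos (fun f _ => hw f) hF
  obtain ⟨N, hN, hp⟩ := h {f // f ∈ F} (fun f => w f.val / ∑ f ∈ F, w f) (fun f => f.val)
    ⟨fun f => (div_pos (hw _) hW).le, by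
      rw [← Finset.sum_div, Finset.sum_coe_sort F w, div_self hW.ne']⟩
    (fun f => hF1 f.2)
  refine ⟨F.filter (· ∈ N), Finset.filter_subset _ _, ?_, ?_⟩
  · refine Subset.trans ?_ hN
    exact (Subgroup.closure_le N).2 fun x hx => (Finset.mem_filter.1 (Finset.mem_coe.1 hx)).2
  · have e : pr (fun f : {f // f ∈ F} => w f.val / ∑ f ∈ F, w f) (fun f => f.val ∈ N) =
        (∑ f ∈ F.filter (· ∈ N), w f) / ∑ f ∈ F, w f := by
      unfold pr
      rw [Finset.sum_div, Finset.sum_filter]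
      rw [← Finset.sum_coe_sort F (fun f => if f ∈ N then w f / ∑ f ∈ F, w f else 0)]
    rw [e, le_div_iff₀ hW] at hp
    linarith

theorem main (U V0 V1 : Set G) (h0 : Sub U V0 (1 / 10)) (h1 : Sub V0 V1 (1 / 10)) (F : Finset G)
    (hF : F.Nonempty) (hF1 : (F : Set G) ⊆ V1) :
    ∃ N : Subgroup G, (N : Set G) ⊆ U ∧ (F : Set G) ⊆ N := by
  classical
  obtain ⟨j, hj⟩ : ∃ j : ℕ, (F.card : ℝ) * (121 / 200 : ℝ) ^ j < 1 := by
    have hc : (0 : ℝ) < F.card := by exact_mod_cast hF.card_pos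
    obtain ⟨j, hj⟩ := exists_pow_lt_of_lt_one (show (0 : ℝ) < 1 / F.card by positivity)
      (show (121 / 200 : ℝ) < 1 by norm_num)
    refine ⟨j, ?_⟩
    rw [lt_div_iff₀ hc] at hj
    linarith
  have hj1 : 1 ≤ j := by
    rcases Nat.eq_zero_or_pos j with h | h
    · subst h
      have : (1 : ℝ) ≤ F.card := by exact_mod_cast hF.card_pos
      rw [pow_zero, mul_one] at hj
      linarith
    · exact h
  obtain ⟨T, hT1, hT2⟩ := mw F (fun T => (Subgroup.closure (T : Set G) : Set G) ⊆ V0)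
    (exists_T V0 V1 h1 F hF hF1) (2 * j)
  have hcount : ∀ f ∈ F, j + 1 ≤ (∑ i, if f ∈ T i then 1 else 0 : ℕ) := by
    intro f hf
    have h2 : (1 / 2 : ℝ) ^ (∑ i, if f ∈ T i then 1 else 0 : ℕ) < (1 / 2 : ℝ) ^ j := by
      have h3 : (1 / 2 : ℝ) ^ (∑ i, if f ∈ T i then 1 else 0 : ℕ) ≤
          ∑ f ∈ F, (1 / 2 : ℝ) ^ (∑ i, if f ∈ T i then 1 else 0 : ℕ) :=
        Finset.single_le_sum (f := fun f => (1 / 2 : ℝ) ^ (∑ i, if f ∈ T i then 1 else 0 : ℕ))
          (fun f _ => by positivity) hf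
      refine (h3.trans hT2).trans_lt ?_
      have h4 : (11 / 20 : ℝ) ^ (2 * j) = (1 / 2 : ℝ) ^ j * (121 / 200 : ℝ) ^ j := by
        rw [pow_mul, ← mul_pow]
        norm_num
      rw [h4]
      have h5 : (0 : ℝ) < (1 / 2 : ℝ) ^ j := by positivity
      calc (F.card : ℝ) * ((1 / 2 : ℝ) ^ j * (121 / 200 : ℝ) ^ j)
          = (1 / 2 : ℝ) ^ j * (F.card * (121 / 200 : ℝ) ^ j) := by ring
        _ < (1 / 2 : ℝ) ^ j * 1 := mul_lt_mul_of_pos_left hj h5
        _ = (1 / 2 : ℝ) ^ j := mul_one _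
    exact (pow_lt_pow_iff_right_of_lt_one₀ (by norm_num) (by norm_num)).1 h2
  choose ι inst w r hw hr hN using fun i : Fin (2 * j) => law (T i).toList
  have hk : (0 : ℝ) < ((2 * j : ℕ) : ℝ) := by
    have : 0 < 2 * j := by omega
    exact_mod_cast this
  obtain ⟨N0, hN0, hp⟩ := h0 (Σ i : Fin (2 * j), ι i) (fun q => w q.1 q.2 / ((2 * j : ℕ) : ℝ))
    (fun q => r q.1 q.2)
    ⟨fun q => div_nonneg ((hw q.1).1 q.2) hk.le, by
      rw [Fintype.sum_sigma]
      simp only
      have : ∀ i : Fin (2 * j), ∑ q, w i q / ((2 * j : ℕ) : ℝ) = 1 / ((2 * j : ℕ) : ℝ) := by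
        intro i
        rw [← Finset.sum_div, (hw i).2]
      rw [Finset.sum_congr rfl fun i _ => this i, Finset.sum_const, Finset.card_univ,
        Fintype.card_fin, nsmul_eq_mul]
      field_simp⟩
    (fun q => by
      refine (hT1 q.1).2 ?_
      have := hr q.1 q.2
      simpa using this)
  refine ⟨N0, hN0, ?_⟩
  have e : pr (fun q : Σ i : Fin (2 * j), ι i => w q.1 q.2 / ((2 * j : ℕ) : ℝ))
      (fun q => r q.1 q.2 ∈ N0) = (∑ i, pr (w i) (fun q => r i q ∈ N0)) / ((2 * j : ℕ) : ℝ) := by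
    unfold pr
    rw [Fintype.sum_sigma, Finset.sum_div]
    refine Finset.sum_congr rfl fun i _ => ?_
    rw [Finset.sum_div]
    refine Finset.sum_congr rfl fun q _ => ?_
    simp only
    split_ifs
    · rfl
    · simp
  rw [e, le_div_iff₀ hk] at hp
  have hle : ∑ i, pr (w i) (fun q => r i q ∈ N0) ≤
      ∑ i : Fin (2 * j), (1 / 2 + 1 / 2 * (if (T i : Set G) ⊆ N0 then (1 : ℝ) else 0)) := by
    refine Finset.sum_le_sum fun i _ => ?_
    by_cases h : (T i : Set G) ⊆ N0
    · rw [if_pos h]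
      refine (pr_le_one _ (hw i) _).trans (by norm_num)
    · rw [if_neg h]
      obtain ⟨g, hg1, hg2⟩ := Set.not_subset.1 h
      refine (hN i N0 ⟨g, by simpa using hg1, hg2⟩).trans (by norm_num)
  rw [Finset.sum_add_distrib, ← Finset.mul_sum, Finset.sum_const, Finset.card_univ,
    Fintype.card_fin, nsmul_eq_mul] at hle
  intro f hf
  by_contra hfN
  have hsum : ∑ i : Fin (2 * j), ((if f ∈ T i then (1 : ℝ) else 0) +
      (if (T i : Set G) ⊆ N0 then (1 : ℝ) else 0)) ≤ ∑ i : Fin (2 * j), (1 : ℝ) := by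
    refine Finset.sum_le_sum fun i _ => ?_
    by_cases h : (T i : Set G) ⊆ N0
    · have : f ∉ T i := fun h' => hfN (h h')
      rw [if_pos h, if_neg this]
      norm_num
    · rw [if_neg h]
      split_ifs <;> norm_num
  rw [Finset.sum_add_distrib, Finset.sum_const, Finset.card_univ, Fintype.card_fin,
    nsmul_eq_mul] at hsum
  have hc : ((j + 1 : ℕ) : ℝ) ≤ ∑ i : Fin (2 * j), (if f ∈ T i then (1 : ℝ) else 0) := by
    have := hcount f (Finset.mem_coe.1 hf)
    have h' : ((j + 1 : ℕ) : ℝ) ≤ ((∑ i, if f ∈ T i then 1 else 0 : ℕ) : ℝ) := by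
      exact_mod_cast this
    refine h'.trans (le_of_eq ?_)
    push_cast
    rfl
  push_cast at *
  have hj0 : (1 : ℝ) ≤ j := by exact_mod_cast hj1
  linarith

theorem exists_finset (V : Set G) (x : G) (hx : x ∈ Subgroup.closure V) :
    ∃ F : Finset G, (F : Set G) ⊆ V ∧ x ∈ Subgroup.closure (F : Set G) := by
  classical
  induction hx using Subgroup.closure_induction with
  | mem x hx => exact ⟨{x}, by simpa using hx, Subgroup.subset_closure (by simp)⟩
  | one => exact ⟨∅, by simp, one_mem _⟩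
  | mul x y _ _ hx hy =>
    obtain ⟨F, h1, h2⟩ := hx
    obtain ⟨F', h1', h2'⟩ := hy
    refine ⟨F ∪ F', by simp [h1, h1'], mul_mem ?_ ?_⟩
    · exact Subgroup.closure_mono (by simp) h2
    · exact Subgroup.closure_mono (by simp) h2'
  | inv x _ hx =>
    obtain ⟨F, h1, h2⟩ := hx
    exact ⟨F, h1, inv_mem h2⟩

end C3

theorem taskC3 : TaskC3 := by
  intro G _ _ _ h U hU
  obtain ⟨V0, hV0, h0⟩ := h U hU
  obtain ⟨V1, hV1, h1⟩ := h V0 hV0
  refine ⟨Subgroup.closure V1, ?_, ?_⟩
  · exact Subgroup.isOpen_of_mem_nhds _ (g := 1) (Filter.mem_of_superset hV1 Subgroup.subset_closure)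
  · intro x hx
    obtain ⟨F, hF, hxF⟩ := C3.exists_finset V1 x hx
    rcases F.eq_empty_or_nonempty with hE | hE
    · subst hE
      simp at hxF
      subst hxF
      exact mem_of_mem_nhds hU
    · obtain ⟨N, hN, hFN⟩ := C3.main U V0 V1 h0 h1 F hE hF
      exact hN ((Subgroup.closure_le N).2 hFN hxF)

end H44D
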