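import Mathlib
import Pool.Agent.H44D.Stmts

set_option autoImplicit false

open Set Filter Topology MeasureTheory
open scoped Pointwise ENNReal

namespace H44D

lemma finSpread_of_not_coset {G : Type} [Group G] (U V : Set G) (c : ℝ)
    (h : ¬ Coset U V c) (hc : 0 < c) : FinSpread U V c := by
  classical
  unfold Coset at h
  push Not at h
  obtain ⟨ι, hι, w, r, hw, hr, h⟩ := h
  -- for each T, an exponent
  have key : ∀ T : Set ι, ∃ n : ℕ, c ≤ pr w (fun i => i ∈ T) →
      ¬ (((r '' T)⁻¹ * (r '' T)) ^ n ⊆ U) := by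
    intro T
    by_contra hcon
    push Not at hcon
    have hT := (hcon 0).1
    have hTne : T.Nonempty := by
      by_contra hne
      rw [Set.not_nonempty_iff_eq_empty] at hne
      subst hne
      have : pr w (fun i => i ∈ (∅ : Set ι)) = 0 := by simp [pr]
      linarith
    obtain ⟨i0, hi0⟩ := hTne
    set D : Set G := (r '' T)⁻¹ * (r '' T) with hD
    have h1D : (1 : G) ∈ D := ⟨(r i0)⁻¹, by simpa using ⟨i0, hi0, rfl⟩, r i0, ⟨i0, hi0, rfl⟩, by simp⟩
    have hDinv : ∀ x ∈ D, x⁻¹ ∈ D := by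
      rintro x ⟨a, ha, b, hb, rfl⟩
      refine ⟨b⁻¹, by simpa using hb, a⁻¹, by simpa using ha, ?_⟩
      simp
    have hpowU : ∀ n : ℕ, D ^ n ⊆ U := fun n => (hcon n).2
    -- closure of D is the union of powers
    have hcl : ∀ x ∈ Subgroup.closure D, ∃ n : ℕ, x ∈ D ^ n := by
      intro x hx
      induction hx using Subgroup.closure_induction with
      | mem x hx => exact ⟨1, by simpa using hx⟩
      | one => exact ⟨0, by simp⟩
      | mul x y _ _ hx hy =>
        obtain ⟨n, hn⟩ := hx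
        obtain ⟨m, hm⟩ := hy
        exact ⟨n + m, by rw [pow_add]; exact Set.mul_mem_mul hn hm⟩
      | inv x _ hx =>
        obtain ⟨n, hn⟩ := hx
        refine ⟨n, ?_⟩
        have hDD : D⁻¹ = D := by
          ext y
          constructor
          · intro hy
            have := hDinv _ hy
            simpa using this
          · intro hy
            exact hDinv _ hy
        have : x⁻¹ ∈ (D ^ n)⁻¹ := by simpa using hn
        rw [← inv_pow, hDD] at this
        exact this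
    have hsub : ((Subgroup.closure D : Subgroup G) : Set G) ⊆ U := by
      intro x hx
      obtain ⟨n, hn⟩ := hcl x hx
      exact hpowU n hn
    have := h (Subgroup.closure D) (r i0) hsub
    have hle : pr w (fun i => i ∈ T) ≤ pr w (fun i => (r i0)⁻¹ * r i ∈ Subgroup.closure D) := by
      unfold pr
      apply Finset.sum_le_sum
      intro i _
      by_cases hi : i ∈ T
      · have : (r i0)⁻¹ * r i ∈ Subgroup.closure D :=
          Subgroup.subset_closure ⟨(r i0)⁻¹, by simpa using ⟨i0, hi0, rfl⟩, r i, ⟨i, hi, rfl⟩, rfl⟩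
        simp [hi, this]
      · have := hw.1 i
        simp only [hi, if_false]
        split_ifs
        · exact this
        · exact le_refl _
    linarith
  choose n hn using key
  -- take the max over all T, using monotonicity of powers
  refine ⟨ι, hι, w, r, ∑ T : Set ι, n T, hw, hr, ?_⟩
  intro T hT hsub
  have hTne : T.Nonempty := by
    by_contra hne
    rw [Set.not_nonempty_iff_eq_empty] at hne
    subst hne
    have : pr w (fun i => i ∈ (∅ : Set ι)) = 0 := by simp [pr]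
    linarith
  obtain ⟨i0, hi0⟩ := hTne
  set D : Set G := (r '' T)⁻¹ * (r '' T) with hD
  have h1D : (1 : G) ∈ D := ⟨(r i0)⁻¹, by simpa using ⟨i0, hi0, rfl⟩, r i0, ⟨i0, hi0, rfl⟩, by simp⟩
  have hle : n T ≤ ∑ T : Set ι, n T := Finset.single_le_sum (f := n) (fun _ _ => Nat.zero_le _) (Finset.mem_univ T)
  have hmono : D ^ (n T) ⊆ D ^ (∑ T : Set ι, n T) := Set.pow_subset_pow_right h1D hle
  exact hn T hT (hmono.trans hsub)

theorem assembly (hA : TaskA) (hB : TaskB) (hC1 : TaskC1) (hC2 : TaskC2) (hC3 : TaskC3) :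
    ∀ (G : Type) [Group G] [TopologicalSpace G] [IsTopologicalGroup G] [PolishSpace G]
      [MeasurableSpace G] [BorelSpace G],
      (∃ U ∈ 𝓝 (1 : G), ∀ H : Subgroup G, IsOpen (H : Set G) → ¬ (H : Set G) ⊆ U) →
      Decomp G := by
  intro G _ _ _ _ _ _ hna
  by_cases hgood : ∃ U ∈ 𝓝 (1 : G), ∀ V ∈ 𝓝 (1 : G), ∀ c : ℝ, 0 < c → FinSpread U V c
  · obtain ⟨U, hU, h⟩ := hgood
    obtain ⟨μ, U', hμ, hU', hs⟩ := hB G U hU h
    exact hA G μ U' hμ hU' hs
  · exfalso
    push Not at hgood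
    have hcos : ∀ U ∈ 𝓝 (1 : G), ∃ V ∈ 𝓝 (1 : G), ∃ c : ℝ, 0 < c ∧ Coset U V c := by
      intro U hU
      obtain ⟨V, hV, c, hc, h⟩ := hgood U hU
      refine ⟨V, hV, c, hc, ?_⟩
      by_contra hcon
      exact h (finSpread_of_not_coset U V c hcon hc)
    have hsub : ∀ U ∈ 𝓝 (1 : G), ∃ V ∈ 𝓝 (1 : G), Sub U V (1 / 10) := by
      intro U hU
      -- choose W with W * W * W⁻¹ * W ⊆ U
      have hcont : ContinuousAt (fun p : G × G × G × G => p.1 * p.2.1 * p.2.2.1⁻¹ * p.2.2.2)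
          ((1 : G), (1 : G), (1 : G), (1 : G)) := by fun_prop
      have hpre : (fun p : G × G × G × G => p.1 * p.2.1 * p.2.2.1⁻¹ * p.2.2.2) ⁻¹' U ∈
          𝓝 ((1 : G), (1 : G), (1 : G), (1 : G)) := hcont (by simpa using hU)
      rw [nhds_prod_eq, nhds_prod_eq, nhds_prod_eq] at hpre
      obtain ⟨A1, hA1, B1, hB1, h1⟩ := Filter.mem_prod_iff.mp hpre
      obtain ⟨A2, hA2, B2, hB2, h2⟩ := Filter.mem_prod_iff.mp hB1
      obtain ⟨A3, hA3, A4, hA4, h3⟩ := Filter.mem_prod_iff.mp hB2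
      set W := A1 ∩ A2 ∩ A3 ∩ A4 with hW
      have hWn : W ∈ 𝓝 (1 : G) := inter_mem (inter_mem (inter_mem hA1 hA2) hA3) hA4
      obtain ⟨V, hV, c, hc, hVc⟩ := hcos W hWn
      -- shrink V
      have hVc' : Coset W (V ∩ W) c := by
        intro ι _ w r hw hr
        exact hVc ι w r hw (fun i => (hr i).1)
      obtain ⟨m, hm⟩ := hC1 G W (V ∩ W) c (inter_mem hV hWn) hc hVc'
      obtain ⟨V'', hV'', hS⟩ := hC2 G _ m hm W hWn (1 / 10) (by norm_num)
      refine ⟨V'', hV'', ?_⟩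
      intro ι _ w r hw hr
      obtain ⟨N, hN, hp⟩ := hS ι w r hw hr
      refine ⟨N, ?_, hp⟩
      refine hN.trans ?_
      rintro x ⟨y, ⟨z, ⟨v1, hv1, u, hu, rfl⟩, v2, hv2, rfl⟩, t, ht, rfl⟩
      have hv2' : v2⁻¹ ∈ W := (Set.mem_inv.mp hv2).2
      have hmem : (v1, u, v2⁻¹, t) ∈ A1 ×ˢ B1 := by
        refine ⟨hv1.2.1.1.1, h2 ⟨hu.1.1.2, h3 ⟨hv2'.1.2, ht.2⟩⟩⟩
      have := h1 hmem
      simpa using this
    obtain ⟨U, hU, hno⟩ := hna
    obtain ⟨H, hH, hHU⟩ := hC3 G hsub U hU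
    exact hno H hH hHU

end H44D
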