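import Mathlib
import Pool.Agent.H44D.Stmts
import Pool.Agent.H44D.B

set_option autoImplicit false

open Set Filter Topology MeasureTheory
open scoped Pointwise ENNReal

namespace H44D

lemma meas_of_weights {G : Type} [MeasurableSpace G] [MeasurableSingletonClass G]
    {ι : Type} [Fintype ι] (w : ι → ℝ) (r : ι → G) (hw : FinProb w) :
    ∃ (ρ : Measure G) (F : Finset G), IsProbabilityMeasure ρ ∧ (∀ x ∈ F, ∃ i, r i = x) ∧
      ρ ((F : Set G)ᶜ) = 0 ∧
      ∀ A : Set G, MeasurableSet A → ρ A = ENNReal.ofReal (pr w (fun i => r i ∈ A)) := by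
  classical
  have hval : ∀ A : Set G, MeasurableSet A →
      (∑ i, ENNReal.ofReal (w i) • Measure.dirac (r i)) A =
        ENNReal.ofReal (pr w (fun i => r i ∈ A)) := by
    intro A hA
    unfold pr
    rw [ENNReal.ofReal_sum_of_nonneg]
    · simp only [Measure.coe_finsetSum, Finset.sum_apply, Measure.smul_apply,
        Measure.dirac_apply' _ hA, smul_eq_mul]
      apply Finset.sum_congr rfl
      intro i _
      by_cases hi : r i ∈ A <;> simp [hi]
    · intro i _
      split_ifs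
      · exact hw.1 i
      · exact le_refl _
  refine ⟨∑ i, ENNReal.ofReal (w i) • Measure.dirac (r i), Finset.univ.image r, ?_, ?_, ?_, hval⟩
  · constructor
    rw [hval _ MeasurableSet.univ]
    have : pr w (fun i => r i ∈ (Set.univ : Set G)) = 1 := by
      unfold pr
      simp only [Set.mem_univ, if_true]
      exact hw.2
    rw [this, ENNReal.ofReal_one]
  · intro x hx
    simp only [Finset.mem_image, Finset.mem_univ, true_and] at hx
    exact hx
  · rw [hval _ (Finset.measurableSet _).compl]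
    have : pr w (fun i => r i ∈ ((Finset.univ.image r : Finset G) : Set G)ᶜ) = 0 := by
      unfold pr
      apply Finset.sum_eq_zero
      intro i _
      simp
    rw [this, ENNReal.ofReal_zero]

/-- one step of the general construction -/
lemma step' {G : Type} [Group G] [MetricSpace G] [IsTopologicalGroup G]
    [MeasurableSpace G] [BorelSpace G] (Good : ℕ → Measure G → Prop)
    (hG : ∀ m, ∀ V ∈ 𝓝 (1 : G), ∃ (ρ : Measure G) (F : Finset G), IsProbabilityMeasure ρ ∧
      (F : Set G) ⊆ V ∧ ρ ((F : Set G)ᶜ) = 0 ∧ Good m ρ)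
    (m : ℕ) (P : Finset G) (W : Set G) (hW : W ∈ 𝓝 (1 : G)) :
    ∃ (A : Set G) (F : Finset G) (ρ : Measure G) (W' : Set G),
      (1 : G) ∈ A ∧ (∀ a ∈ A, ∀ b ∈ A, a * b ∈ W) ∧
      (∀ u ∈ P, ∀ v ∈ A, dist u (u * v) ≤ 1 * (1 / 2 : ℝ) ^ m) ∧
      (F : Set G) ⊆ A ∧ IsProbabilityMeasure ρ ∧ ρ ((F : Set G)ᶜ) = 0 ∧ Good m ρ ∧
      W' ⊆ A ∧ W' ∈ 𝓝 (1 : G) ∧ IsClosed W' := by
  classical
  have hA1 : ∃ A1 ∈ 𝓝 (1 : G), ∀ a ∈ A1, ∀ b ∈ A1, a * b ∈ W := by
    have hcont : ContinuousAt (fun p : G × G => p.1 * p.2) ((1 : G), (1 : G)) := by fun_prop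
    have hpre : (fun p : G × G => p.1 * p.2) ⁻¹' W ∈ 𝓝 ((1 : G), (1 : G)) :=
      hcont (by simpa using hW)
    rw [nhds_prod_eq] at hpre
    obtain ⟨A1, hA1, B1, hB1, h1⟩ := Filter.mem_prod_iff.mp hpre
    exact ⟨A1 ∩ B1, inter_mem hA1 hB1, fun a ha b hb => h1 (Set.mk_mem_prod ha.1 hb.2)⟩
  obtain ⟨A1, hA1, hA1W⟩ := hA1
  have hA2 : ∀ u : G, {v : G | dist u (u * v) ≤ 1 * (1 / 2 : ℝ) ^ m} ∈ 𝓝 (1 : G) := by
    intro u
    have hcont : ContinuousAt (fun v : G => dist u (u * v)) 1 := by fun_prop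
    have hpos : (0 : ℝ) < 1 * (1 / 2 : ℝ) ^ m := by positivity
    have : Iic (1 * (1 / 2 : ℝ) ^ m) ∈ 𝓝 (dist u (u * 1)) := by
      rw [mul_one, dist_self]
      exact Iic_mem_nhds hpos
    exact hcont this
  set A : Set G := A1 ∩ ⋂ u ∈ P, {v : G | dist u (u * v) ≤ 1 * (1 / 2 : ℝ) ^ m} with hA
  have hAn : A ∈ 𝓝 (1 : G) := by
    refine inter_mem hA1 ?_
    rw [Filter.biInter_finset_mem]
    intro u _
    exact hA2 u
  obtain ⟨ρ, F, hρ, hFA, hF0, hgood⟩ := hG m A hAn
  obtain ⟨W', hW'n, hW'c, hW's⟩ := exists_mem_nhds_isClosed_subset hAn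
  refine ⟨A, F, ρ, W', mem_of_mem_nhds hAn, ?_, ?_, hFA, hρ, hF0, hgood, hW's, hW'n, hW'c⟩
  · intro a ha b hb
    exact hA1W a ha.1 b hb.1
  · intro u hu v hv
    have := hv.2
    simp only [mem_iInter] at this
    exact this u hu

theorem prod_lemma {G : Type} [Group G] [TopologicalSpace G] [IsTopologicalGroup G]
    [PolishSpace G] [MeasurableSpace G] [BorelSpace G] (Good : ℕ → Measure G → Prop)
    (hG : ∀ m, ∀ V ∈ 𝓝 (1 : G), ∃ (ρ : Measure G) (F : Finset G), IsProbabilityMeasure ρ ∧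
      (F : Set G) ⊆ V ∧ ρ ((F : Set G)ᶜ) = 0 ∧ Good m ρ) (O : Set G) (hO : O ∈ 𝓝 (1 : G)) :
    ∃ μ : Measure G, IsProbabilityMeasure μ ∧ ∀ m, ∃ ρ, Good m ρ ∧
      ∀ A : Set G, MeasurableSet A → ∀ c < μ A, ∃ u v : G, v ∈ O ∧
        c ≤ ρ {g | u * g * v ∈ A} := by
  classical
  let _ := TopologicalSpace.upgradeIsCompletelyMetrizable G
  obtain ⟨O', hO'n, hO'c, hO'O⟩ := exists_mem_nhds_isClosed_subset hO
  choose A F ρ W' h1 hmul hdist hFA hρ hF0 hgood hW'A hW'n hW'c using
    fun (m : ℕ) (P : Finset G) (W : Set G) (hW : W ∈ 𝓝 (1 : G)) =>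
      step' Good hG m P W hW
  let St := {p : Finset G × Set G // p.2 ∈ 𝓝 (1 : G) ∧ IsClosed p.2}
  let nxt : ℕ → St → St := fun m p =>
    ⟨(p.1.1 * insert 1 (F m p.1.1 p.1.2 p.2.1), W' m p.1.1 p.1.2 p.2.1),
      hW'n m p.1.1 p.1.2 p.2.1, hW'c m p.1.1 p.1.2 p.2.1⟩
  let s : ℕ → St := fun m => Nat.rec (motive := fun _ => St)
    ⟨({1}, O'), hO'n, hO'c⟩ (fun m p => nxt m p) m
  have hs : ∀ m, s (m + 1) = nxt m (s m) := fun m => rfl
  let P : ℕ → Finset G := fun m => (s m).1.1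
  let W : ℕ → Set G := fun m => (s m).1.2
  have hWn : ∀ m, W m ∈ 𝓝 (1 : G) := fun m => (s m).2.1
  have hWc : ∀ m, IsClosed (W m) := fun m => (s m).2.2
  let AA : ℕ → Set G := fun m => A m (P m) (W m) (hWn m)
  let FF : ℕ → Finset G := fun m => F m (P m) (W m) (hWn m)
  let rr : ℕ → Measure G := fun m => ρ m (P m) (W m) (hWn m)
  have hP0 : (1 : G) ∈ P 0 := by show (1 : G) ∈ ({1} : Finset G); simp
  have hPs : ∀ m, P (m + 1) = P m * insert 1 (FF m) := fun m => rfl
  have hWs : ∀ m, W (m + 1) ⊆ AA m := fun m => hW'A m (P m) (W m) (hWn m)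
  have hmul' : ∀ m, ∀ a ∈ AA m, ∀ b ∈ AA m, a * b ∈ W m := fun m => hmul m (P m) (W m) (hWn m)
  have hdist' : ∀ m, ∀ u ∈ P m, ∀ v ∈ AA m, dist u (u * v) ≤ 1 * (1 / 2 : ℝ) ^ m :=
    fun m => hdist m (P m) (W m) (hWn m)
  have h1' : ∀ m, (1 : G) ∈ AA m := fun m => h1 m (P m) (W m) (hWn m)
  have hFA' : ∀ m, (FF m : Set G) ⊆ AA m := fun m => hFA m (P m) (W m) (hWn m)
  have hrr : ∀ m, IsProbabilityMeasure (rr m) := fun m => hρ m (P m) (W m) (hWn m)
  have hF0' : ∀ m, rr m ((FF m : Set G)ᶜ) = 0 := fun m => hF0 m (P m) (W m) (hWn m)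
  have hgood' : ∀ m, Good m (rr m) := fun m => hgood m (P m) (W m) (hWn m)
  have hWdec : ∀ m, W (m + 1) ⊆ W m := by
    intro m x hx
    have := hmul' m x (hWs m hx) 1 (h1' m)
    rwa [mul_one] at this
  have hWO : ∀ m, W m ⊆ O' := by
    intro m
    induction m with
    | zero => exact le_refl _
    | succ m ih => exact (hWdec m).trans ih
  let f : ℕ → G → G := fun m g => if g ∈ FF m then g else 1
  have hfmeas : ∀ m, Measurable (f m) := by
    intro m
    refine Measurable.ite ?_ measurable_id measurable_const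
    exact (FF m).measurableSet
  have hfA : ∀ m g, f m g ∈ AA m := by
    intro m g
    by_cases hg : g ∈ FF m
    · simp only [f, if_pos hg]; exact hFA' m hg
    · simp only [f, if_neg hg]; exact h1' m
  have hfF : ∀ m g, f m g ∈ insert 1 (FF m) := by
    intro m g
    by_cases hg : g ∈ FF m
    · simp [f, if_pos hg, hg]
    · simp [f, if_neg hg]
  have hpre : ∀ ω m, tl f ω 0 m ∈ P m := by
    intro ω m
    induction m with
    | zero => exact hP0
    | succ m ih =>
      rw [tl_succ', hPs]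
      simp only [zero_add]
      exact Finset.mul_mem_mul ih (hfF m _)
  have htlW : ∀ ω k m, tl f ω m k ∈ W m := by
    intro ω k
    induction k with
    | zero => intro m; exact mem_of_mem_nhds (hWn m)
    | succ k ih =>
      intro m
      exact hmul' m _ (hfA m _) _ (hWs m (ih (m + 1)))
  have hcauchy : ∀ ω, CauchySeq (fun m => tl f ω 0 m) := by
    intro ω
    apply cauchySeq_of_le_geometric (1 / 2) 1 (by norm_num)
    intro m
    rw [tl_succ']
    simp only [zero_add]
    exact hdist' m _ (hpre ω m) _ (hfA m _)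
  have hlim : ∀ ω, ∃ g, Tendsto (fun m => tl f ω 0 m) atTop (𝓝 g) := fun ω =>
    cauchySeq_tendsto_of_complete (hcauchy ω)
  choose Φ hΦ using hlim
  have htlmeas : ∀ k m, Measurable (fun ω : ℕ → G => tl f ω m k) := by
    intro k
    induction k with
    | zero => intro m; exact measurable_const
    | succ k ih =>
      intro m
      exact ((hfmeas m).comp (measurable_pi_apply m)).mul (ih (m + 1))
  have hΦmeas : Measurable Φ :=
    measurable_of_tendsto_metrizable (fun k => htlmeas k 0) (tendsto_pi_nhds.mpr hΦ)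
  have htail : ∀ ω m, Tendsto (fun k => tl f ω m k) atTop (𝓝 ((tl f ω 0 m)⁻¹ * Φ ω)) := by
    intro ω m
    have h2 : Tendsto (fun k => tl f ω 0 (m + k)) atTop (𝓝 (Φ ω)) := by
      have := (hΦ ω).comp (tendsto_add_atTop_nat m)
      refine this.congr ?_
      intro k
      simp [Function.comp, add_comm]
    have h3 : Tendsto (fun k => (tl f ω 0 m)⁻¹ * tl f ω 0 (m + k)) atTop
        (𝓝 ((tl f ω 0 m)⁻¹ * Φ ω)) := h2.const_mul _
    refine h3.congr ?_
    intro k
    rw [tl_add]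
    simp
  have htailW : ∀ ω m, (tl f ω 0 m)⁻¹ * Φ ω ∈ W m := fun ω m =>
    (hWc m).mem_of_tendsto (htail ω m) (Eventually.of_forall (fun k => htlW ω k m))
  have : ∀ m, IsProbabilityMeasure (rr m) := hrr
  let Pr := Measure.infinitePi rr
  refine ⟨Pr.map Φ, ?_, ?_⟩
  · exact Measure.isProbabilityMeasure_map hΦmeas.aemeasurable
  · intro m
    refine ⟨rr m, hgood' m, ?_⟩
    intro B hB c hc
    rw [Measure.map_apply hΦmeas hB] at hc
    obtain ⟨ω, hω⟩ := exists_fiber rr m (Φ ⁻¹' B) (hΦmeas hB) c hc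
    set u := tl f ω 0 m with hu
    set v := (tl f ω 0 (m + 1))⁻¹ * Φ ω with hv
    have hvW : v ∈ W (m + 1) := htailW ω (m + 1)
    refine ⟨u, v, hO'O (hWO (m + 1) hvW), ?_⟩
    have hdec : ∀ g ∈ FF m, Φ (Function.update ω m g) = u * g * v := by
      intro g hg
      set ω' := Function.update ω m g with hω'
      have e1 : tl f ω' 0 m = u := by
        apply tl_congr
        intro i _ hi
        rw [hω', Function.update_of_ne (by omega)]
      have e2 : tl f ω' 0 (m + 1) = u * g := by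
        rw [tl_succ', e1]
        simp only [zero_add, hω', Function.update_self]
        simp [f, hg]
      have e3 : ∀ k, tl f ω' (m + 1) k = tl f ω (m + 1) k := by
        intro k
        apply tl_congr
        intro i hi _
        rw [hω', Function.update_of_ne (by omega)]
      have e4 := htail ω' (m + 1)
      simp only [e3] at e4
      have e5 := tendsto_nhds_unique e4 (htail ω (m + 1))
      rw [e2] at e5
      have : Φ ω' = (u * g) * ((u * g)⁻¹ * Φ ω') := by group
      rw [this, e5]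
    refine hω.trans ?_
    have hsub : {g | Function.update ω m g ∈ Φ ⁻¹' B} ⊆
        {g | u * g * v ∈ B} ∪ ((FF m : Set G)ᶜ) := by
      intro g hg
      by_cases hgF : g ∈ FF m
      · left
        show u * g * v ∈ B
        rw [← hdec g hgF]
        exact hg
      · right
        exact hgF
    calc rr m {g | Function.update ω m g ∈ Φ ⁻¹' B}
        ≤ rr m ({g | u * g * v ∈ B} ∪ ((FF m : Set G)ᶜ)) := measure_mono hsub
      _ ≤ rr m {g | u * g * v ∈ B} + rr m ((FF m : Set G)ᶜ) := measure_union_le _ _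
      _ = rr m {g | u * g * v ∈ B} := by rw [hF0' m, add_zero]

end H44D
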