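import Mathlib
import Pool.Agent.H44D.Stmts

set_option autoImplicit false

open Set Filter Topology MeasureTheory
open scoped Pointwise ENNReal

namespace H44D

/-- equidistribution lemma: for a finite set `F` there is one finitely supported probability on the
subgroup generated by `F` giving mass `≤ ε` to every left coset of every subgroup `H` such that
`closure F` is not covered by `N` left cosets of `H`, where `ε (N + 1) > 2` -/
def TaskS : Prop := ∀ (G : Type) [Group G] (F : Finset G) (N : ℕ) (ε : ℝ),
  0 < ε → 2 < ε * ((N : ℝ) + 1) →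
  ∃ (ι : Type) (_ : Fintype ι) (w : ι → ℝ) (r : ι → G), FinProb w ∧
    (∀ i, r i ∈ Subgroup.closure (F : Set G)) ∧
    ∀ H : Subgroup G,
      (∀ T : Finset G, T.card ≤ N →
        ∃ γ ∈ Subgroup.closure (F : Set G), ∀ t ∈ T, t⁻¹ * γ ∉ H) →
      ∀ g : G, pr w (fun i => g⁻¹ * r i ∈ H) ≤ ε

end H44D
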