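import Mathlib
import Pool.Agent.H44D.Stmts
import Pool.Agent.H44D.Stmts2
import Pool.Agent.H44D.Prod

set_option autoImplicit false

open Set Filter Topology MeasureTheory
open scoped Pointwise ENNReal

namespace H44D

/-- Borel-Cantelli part for an open subgroup `O` and open subgroups `V m` -/
theorem final2 {G : Type} [Group G] [TopologicalSpace G] [IsTopologicalGroup G]
    [PolishSpace G] [MeasurableSpace G] [BorelSpace G] (O : Subgroup G) (hO : IsOpen (O : Set G))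
    (V : ℕ → Subgroup G) (hVo : ∀ m, IsOpen (V m : Set G)) (μ : Measure G)
    (hμ : IsProbabilityMeasure μ)
    (h : ∀ m, ∀ y ∈ O, ∀ g : G, μ {x | y * (g * x) * y⁻¹ ∈ V m} ≤ (1 / 2) ^ m) : Decomp G := by
  classical
  let d : ℕ → G := fun k => TopologicalSpace.denseSeq G (Nat.unpair k).1
  let e : ℕ → G := fun k => TopologicalSpace.denseSeq G k
  let V' : ℕ → Set G := fun k => {x | ∀ j ∈ Finset.range (k + 1), (e j)⁻¹ * x * e j ∈ V k}
  have hV'o : ∀ k, IsOpen (V' k) := by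
    intro k
    have : V' k = ⋂ j ∈ Finset.range (k + 1), {x : G | (e j)⁻¹ * x * e j ∈ V k} := by
      ext x; simp [V']
    rw [this]
    apply isOpen_biInter_finset
    intro j _
    exact (hVo k).preimage (by fun_prop)
  have hV'1 : ∀ k, (1 : G) ∈ V' k := by
    intro k j _
    simp [one_mem]
  let W : ℕ → Set G := fun k => {x | (d k)⁻¹ * x ∈ V' k}
  have hWo : ∀ k, IsOpen (W k) := fun k => (hV'o k).preimage (continuous_const.mul continuous_id)
  set C : Set G := ⋂ N : ℕ, ⋃ k : {k : ℕ // N ≤ k}, W k with hC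
  have hCo : ∀ N : ℕ, IsOpen (⋃ k : {k : ℕ // N ≤ k}, W k) := fun N =>
    isOpen_iUnion (fun k => hWo k)
  have hCres : C ∈ residual G := by
    rw [hC, countable_iInter_mem]
    intro N
    apply residual_of_dense_open (hCo N)
    refine (TopologicalSpace.denseRange_denseSeq G).mono ?_
    rintro x ⟨i, rfl⟩
    refine mem_iUnion.mpr ⟨⟨Nat.pair i N, Nat.right_le_pair i N⟩, ?_⟩
    show (d (Nat.pair i N))⁻¹ * TopologicalSpace.denseSeq G i ∈ V' (Nat.pair i N)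
    simp only [d, Nat.unpair_pair, inv_mul_cancel]
    exact hV'1 _
  have hCm : MeasurableSet C := MeasurableSet.iInter (fun N => (hCo N).measurableSet)
  refine ⟨Cᶜ, C, Set.compl_union_self C, ?_, C, hCm, le_rfl, μ, hμ, ?_⟩
  · unfold IsMeagre
    rw [compl_compl]
    exact hCres
  · intro g h'
    -- h' = e j * o
    obtain ⟨j, hj⟩ : ∃ j, (e j)⁻¹ * h' ∈ O := by
      have hopen : IsOpen {x : G | x⁻¹ * h' ∈ O} := hO.preimage (by fun_prop)
      obtain ⟨j, hj⟩ := (TopologicalSpace.denseRange_denseSeq G).exists_mem_open hopen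
        ⟨h', by simp [one_mem]⟩
      exact ⟨j, hj⟩
    let S : ℕ → Set G := fun k => {y | g⁻¹ * y * h'⁻¹ ∈ W k}
    have hsmall : ∀ k, j ≤ k → μ (S k) ≤ (1 / 2) ^ k := by
      intro k hk
      set o := (e j)⁻¹ * h' with ho
      have hsub : S k ⊆ {x | o * ((o⁻¹ * (e j)⁻¹ * (d k)⁻¹ * g⁻¹) * x) * o⁻¹ ∈ V k} := by
        intro x hx
        have hx' : (d k)⁻¹ * (g⁻¹ * x * h'⁻¹) ∈ V' k := hx
        have := hx' j (Finset.mem_range.mpr (by omega))
        show o * ((o⁻¹ * (e j)⁻¹ * (d k)⁻¹ * g⁻¹) * x) * o⁻¹ ∈ V k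
        have e1 : o * ((o⁻¹ * (e j)⁻¹ * (d k)⁻¹ * g⁻¹) * x) * o⁻¹ =
            (e j)⁻¹ * ((d k)⁻¹ * (g⁻¹ * x * h'⁻¹)) * e j := by
          rw [ho]; group
        rw [e1]
        exact this
      exact (measure_mono hsub).trans (h k o hj _)
    have hsub : (fun x => g * x * h') '' C ⊆ {y | ∃ᶠ k in atTop, y ∈ S (k + j)} := by
      rintro y ⟨x, hx, rfl⟩
      rw [mem_ofPred_eq, Filter.frequently_atTop]
      intro N
      have := mem_iInter.mp hx (N + j)
      obtain ⟨⟨k, hk⟩, hxk⟩ := mem_iUnion.mp this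
      refine ⟨k - j, by omega, ?_⟩
      show g⁻¹ * (g * x * h') * h'⁻¹ ∈ W (k - j + j)
      have e1 : g⁻¹ * (g * x * h') * h'⁻¹ = x := by group
      rw [e1, show k - j + j = k by omega]
      exact hxk
    refine measure_mono_null hsub ?_
    refine measure_setOfPred_frequently_eq_zero (p := fun k y => y ∈ S (k + j)) ?_
    have hle : ∑' k, μ {x | x ∈ S (k + j)} ≤ ∑' k : ℕ, (1 / 2 : ℝ≥0∞) ^ k := by
      refine ENNReal.tsum_le_tsum (fun k => ?_)
      refine (hsmall (k + j) (by omega)).trans ?_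
      exact pow_le_pow_of_le_one (by norm_num) (by simp) (by omega)
    refine ne_top_of_le_ne_top ?_ hle
    rw [ENNReal.tsum_geometric]
    norm_num

theorem assembly2 (hS : TaskS) {G : Type} [Group G] [TopologicalSpace G] [IsTopologicalGroup G]
    [PolishSpace G] [MeasurableSpace G] [BorelSpace G]
    (hna : ∀ U ∈ 𝓝 (1 : G), ∃ H : Subgroup G, IsOpen (H : Set G) ∧ (H : Set G) ⊆ U)
    (hinc : ∃ O ∈ 𝓝 (1 : G), ∀ W ∈ 𝓝 (1 : G), ∀ N : ℕ, ∃ F : Finset G, (F : Set G) ⊆ W ∧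
      ∃ V : Subgroup G, IsOpen (V : Set G) ∧ ∀ y ∈ O, ∀ T : Finset G, T.card ≤ N →
        ∃ γ ∈ Subgroup.closure (F : Set G), ∀ t ∈ T, y * (t⁻¹ * γ) * y⁻¹ ∉ V) :
    Decomp G := by
  classical
  obtain ⟨O0, hO0, hinc⟩ := hinc
  obtain ⟨O, hOo, hOO0⟩ := hna O0 hO0
  have hOn : (O : Set G) ∈ 𝓝 (1 : G) := hOo.mem_nhds O.one_mem
  let Good : ℕ → Measure G → Prop := fun m ρ => ∃ V : Subgroup G, IsOpen (V : Set G) ∧
    ∀ y ∈ O, ∀ g : G, ρ {x | y * (g * x) * y⁻¹ ∈ V} ≤ (1 / 2) ^ m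
  have hG : ∀ m, ∀ V ∈ 𝓝 (1 : G), ∃ (ρ : Measure G) (F : Finset G), IsProbabilityMeasure ρ ∧
      (F : Set G) ⊆ V ∧ ρ ((F : Set G)ᶜ) = 0 ∧ Good m ρ := by
    intro m W0 hW0
    obtain ⟨W, hWo, hWW0⟩ := hna W0 hW0
    obtain ⟨N, hN⟩ : ∃ N : ℕ, 2 < (1 / 2 : ℝ) ^ m * ((N : ℝ) + 1) := by
      obtain ⟨N, hN⟩ := exists_nat_gt (2 * (2 : ℝ) ^ m)
      refine ⟨N, ?_⟩
      have h1 : (1 / 2 : ℝ) ^ m * 2 ^ m = 1 := by
        rw [← mul_pow]; norm_num
      have h2 : (0 : ℝ) < (1 / 2 : ℝ) ^ m := by positivity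
      have h3 : 2 * (2 : ℝ) ^ m < (N : ℝ) + 1 := by linarith
      calc (2 : ℝ) = (1 / 2 : ℝ) ^ m * (2 * 2 ^ m) := by
            rw [mul_left_comm, h1, mul_one]
        _ < (1 / 2 : ℝ) ^ m * ((N : ℝ) + 1) := mul_lt_mul_of_pos_left h3 h2
    obtain ⟨F, hFW, V, hVo, hV⟩ := hinc W (hWo.mem_nhds W.one_mem) N
    obtain ⟨ι, _, w, r, hw, hr, hprop⟩ := hS G F N ((1 / 2 : ℝ) ^ m) (by positivity) hN
    obtain ⟨ρ, F', hρ, hF', hF'0, hval⟩ := meas_of_weights w r hw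
    refine ⟨ρ, F', hρ, ?_, hF'0, V, hVo, ?_⟩
    · intro x hx
      obtain ⟨i, rfl⟩ := hF' x hx
      apply hWW0
      have hcl : Subgroup.closure (F : Set G) ≤ W := (Subgroup.closure_le W).mpr hFW
      exact hcl (hr i)
    · intro y hy g
      have hopen : IsOpen {x : G | y * (g * x) * y⁻¹ ∈ V} := hVo.preimage (by fun_prop)
      rw [hval _ hopen.measurableSet]
      have := hprop (V.comap (MulAut.conj y).toMonoidHom) (by
        intro T hT
        obtain ⟨γ, hγ, hγT⟩ := hV y (hOO0 hy) T hT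
        exact ⟨γ, hγ, fun t ht => by simpa using hγT t ht⟩) g⁻¹
      have h2 : pr w (fun i => r i ∈ {x : G | y * (g * x) * y⁻¹ ∈ V}) ≤ (1 / 2 : ℝ) ^ m := by
        refine le_trans (le_of_eq ?_) this
        congr 1
        funext i
        simp
      calc ENNReal.ofReal (pr w (fun i => r i ∈ {x : G | y * (g * x) * y⁻¹ ∈ V}))
          ≤ ENNReal.ofReal ((1 / 2 : ℝ) ^ m) := ENNReal.ofReal_le_ofReal h2
        _ = (1 / 2) ^ m := by
          rw [ENNReal.ofReal_pow (by norm_num)]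
          congr 1
          rw [one_div, one_div, ENNReal.ofReal_inv_of_pos (by norm_num)]
          simp
  obtain ⟨μ, hμ, hμg⟩ := prod_lemma Good hG (O : Set G) hOn
  choose ρ hρg hρA using hμg
  choose V hVo hV using hρg
  refine final2 O hOo V hVo μ hμ ?_
  intro m y hy g
  by_contra hcon
  push Not at hcon
  obtain ⟨c, hc1, hc2⟩ := exists_between hcon
  have hopen : IsOpen {x : G | y * (g * x) * y⁻¹ ∈ V m} := (hVo m).preimage (by fun_prop)
  obtain ⟨u, v, hv, hle⟩ := hρA m _ hopen.measurableSet c hc2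
  have hyv : y * v⁻¹ ∈ O := O.mul_mem hy (O.inv_mem hv)
  have h1 := hV m (y * v⁻¹) hyv (v * g * u)
  have h2 : {x : G | u * x * v ∈ {x : G | y * (g * x) * y⁻¹ ∈ V m}} =
      {x | y * v⁻¹ * (v * g * u * x) * (y * v⁻¹)⁻¹ ∈ V m} := by
    ext x
    have : y * (g * (u * x * v)) * y⁻¹ = y * v⁻¹ * (v * g * u * x) * (y * v⁻¹)⁻¹ := by group
    show y * (g * (u * x * v)) * y⁻¹ ∈ V m ↔ _
    rw [this]
    rfl
  rw [h2] at hle
  exact absurd (hle.trans h1) (not_le.mpr hc1)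

end H44D
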